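import Mathlib

set_option autoImplicit false

/-!
# MP_0fc137_lc: telltale candidates over alphabets with at least four letters

For every finite alphabet with at least four letters we give a morphically primitive pattern in
which two letters do not occur, and a variable of it, such that every telltale candidate for that
variable is substantially ambiguous for it.

The pattern is the one of the starting files `Pool.Agent.Helper913.EPatA` (learnability problem
MP_3f2786_lc) up to names of variables; the proof that it is morphically primitive follows the one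
in the starting file `Pool.Agent.Results.MP_00321d_lc.NotAvoidable`, from which many lemmas are
copied.
-/

namespace Pool.Agent.Results.MP_0fc137_lc.TelltaleFails

section Defs

variable {S : Type}

/-- A pattern over the alphabet `S`: a word over the variables `ℕ` and the letters of `S`. -/
abbrev Pattern (S : Type) : Type := List (ℕ ⊕ S)

/-- The image of a pattern under the substitution which maps the variable `x` to the word `σ x`
and fixes every letter. -/
def app (σ : ℕ → List S) (α : Pattern S) : List S :=
  α.flatMap (Sum.elim σ (fun a => [a]))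

/-- The image of a pattern under the letter-preserving morphism of patterns which maps the
variable `x` to `φ x`. -/
def msub (φ : ℕ → Pattern S) (α : Pattern S) : Pattern S :=
  α.flatMap (Sum.elim φ (fun a => [Sum.inr a]))

/-- `α` is morphically primitive: there are no pattern `β` shorter than `α` and
letter-preserving morphisms `φ`, `ψ` with `φ (α) = β` and `ψ (β) = α`. -/
def MorphPrimitive (α : Pattern S) : Prop :=
  ¬ ∃ (β : Pattern S) (φ ψ : ℕ → Pattern S),
    β.length < α.length ∧ msub φ α = β ∧ msub ψ β = α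

/-- Two letters at least do not occur in `α`. -/
def QuasiTerminalFree (α : Pattern S) : Prop :=
  ∃ a b : S, a ≠ b ∧ Sum.inr a ∉ α ∧ Sum.inr b ∉ α

/-- The word of the variables of `α`, obtained by deleting all letters. -/
def tf (α : Pattern S) : Pattern S := α.filter Sum.isLeft

open Classical in
/-- The number of occurrences of the symbol `a` in the word `l`. -/
noncomputable def occ {X : Type} (a : X) (l : List X) : ℕ := l.count a

/-- `σ` is a telltale candidate for the variable `j` of `α`. -/
def TelltaleCandidate (σ : ℕ → List S) (j : ℕ) (α : Pattern S) : Prop :=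
  ∃ A : S, occ A (σ j) = 1 ∧ occ A (app σ (tf α)) = occ (Sum.inl j) α

/-- `σ` is substantially ambiguous for `j` in `α`. -/
def SubstAmbiguous (σ : ℕ → List S) (j : ℕ) (α : Pattern S) : Prop :=
  ∃ τ : ℕ → List S, app τ α = app σ α ∧ τ j = []

end Defs

section Basic

variable {S : Type}

@[simp] theorem app_nil (σ : ℕ → List S) : app σ [] = [] := rfl
@[simp] theorem app_inl (σ : ℕ → List S) (v : ℕ) (α : Pattern S) :
    app σ (Sum.inl v :: α) = σ v ++ app σ α := by simp [app]
@[simp] theorem app_inr (σ : ℕ → List S) (a : S) (α : Pattern S) :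
    app σ (Sum.inr a :: α) = a :: app σ α := by simp [app]
@[simp] theorem app_append (σ : ℕ → List S) (α β : Pattern S) :
    app σ (α ++ β) = app σ α ++ app σ β := by simp [app]
@[simp] theorem msub_nil (φ : ℕ → Pattern S) : msub φ [] = [] := rfl
@[simp] theorem msub_inl (φ : ℕ → Pattern S) (v : ℕ) (α : Pattern S) :
    msub φ (Sum.inl v :: α) = φ v ++ msub φ α := by simp [msub]
@[simp] theorem msub_inr (φ : ℕ → Pattern S) (a : S) (α : Pattern S) :
    msub φ (Sum.inr a :: α) = Sum.inr a :: msub φ α := by simp [msub]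
@[simp] theorem msub_append (φ : ℕ → Pattern S) (α β : Pattern S) :
    msub φ (α ++ β) = msub φ α ++ msub φ β := by simp [msub]

theorem msub_msub (ψ φ : ℕ → Pattern S) (α : Pattern S) :
    msub ψ (msub φ α) = msub (fun v => msub ψ (φ v)) α := by
  induction α with
  | nil => rfl
  | cons s α ih =>
    rcases s with v | a
    · simp [ih]
    · simp [ih]

end Basic

section Pat

variable {S : Type}

/-- the central part `y₀² y₁² y₂²` -/
def Y : Pattern S := [Sum.inl 0, Sum.inl 0, Sum.inl 1, Sum.inl 1, Sum.inl 2, Sum.inl 2]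

/-- the variable with index `(i, c)` -/
def V (i c : ℕ) : ℕ ⊕ S := Sum.inl (8 * i + c + 3)

def hl (n i : ℕ) : Pattern S := if i = n then [] else [V i 5]
def uu (i : ℕ) : Pattern S := if i = 0 then [] else V i 4 :: (Y ++ [V i 5, V i 4])
def stf (n i : ℕ) : Pattern S := uu i ++ (Y ++ hl n (i + 1))
def B1 (n i : ℕ) : Pattern S := V i 0 :: V i 2 :: V i 2 :: (stf n i ++ [V i 1])
def B2 (n i : ℕ) : Pattern S := V i 0 :: (stf n i ++ [V i 3, V i 3, V i 1])
def blk (n : ℕ) (T : ℕ → S) (i : ℕ) : Pattern S :=
  Sum.inr (T i) :: (B1 n i ++ Sum.inr (T (i + 1)) :: V i 6 :: Sum.inr (T i) ::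
    (B2 n i ++ [Sum.inr (T (i + 1)), V (i + 1) 7]))
def pre (n : ℕ) (T : ℕ → S) (k : ℕ) : Pattern S := V 0 7 :: (List.range k).flatMap (blk n T)
/-- the pattern -/
def pat (n : ℕ) (T : ℕ → S) : Pattern S := pre n T n

/-- the value of a substitution at `(i, c)` -/
abbrev vl (σ : ℕ → List S) (i c : ℕ) : List S := σ (8 * i + c + 3)

@[simp] theorem app_V (σ : ℕ → List S) (i c : ℕ) (α : Pattern S) :
    app σ (V i c :: α) = vl σ i c ++ app σ α := by simp [V]

theorem app_Y (σ : ℕ → List S) :
    app σ Y = σ 0 ++ (σ 0 ++ (σ 1 ++ (σ 1 ++ (σ 2 ++ σ 2)))) := by simp [Y]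

theorem app_uu (σ : ℕ → List S) (i : ℕ) :
    app σ (uu i) = if i = 0 then [] else vl σ i 4 ++ (app σ Y ++ (vl σ i 5 ++ vl σ i 4)) := by
  unfold uu
  split_ifs <;> simp

theorem app_hl (σ : ℕ → List S) (n i : ℕ) :
    app σ (hl n i) = if i = n then [] else vl σ i 5 := by
  unfold hl
  split_ifs <;> simp

theorem app_blk (n : ℕ) (T : ℕ → S) (σ : ℕ → List S) (i : ℕ) :
    app σ (blk n T i) = T i :: (vl σ i 0 ++ (vl σ i 2 ++ (vl σ i 2 ++ (app σ (uu i) ++ (app σ Y ++
      (app σ (hl n (i + 1)) ++ (vl σ i 1 ++ T (i + 1) :: (vl σ i 6 ++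
      T i :: (vl σ i 0 ++ (app σ (uu i) ++ (app σ Y ++ (app σ (hl n (i + 1)) ++
      (vl σ i 3 ++ (vl σ i 3 ++ (vl σ i 1 ++ T (i + 1) :: vl σ (i + 1) 7))))))))))))))) := by
  simp [blk, B1, B2, stf]

/-- the values of the second substitution -/
def nv (n : ℕ) (T : ℕ → S) (σ : ℕ → List S) (j : ℕ) (P Q : List S) : ℕ → ℕ → List S
  | i, 0 => if i = j then Q else vl σ i 0
  | i, 1 => if i + 1 = j then P else vl σ i 1
  | i, 2 => if i = j then [] else vl σ i 2
  | i, 3 => if i + 1 = j then [] else vl σ i 3
  | i, 4 => if i < j then vl σ i 4 else if i = j then [] else vl σ i 4 ++ app σ Y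
  | i, 5 => if i < j then app σ Y ++ vl σ i 5 else if i = j then [] else vl σ i 5
  | i, 6 => if i + 1 = j then Q ++ (app σ (hl n j) ++ (vl σ i 1 ++ T j :: vl σ i 6)) else
      if i = j then vl σ i 6 ++ T j :: (vl σ i 0 ++ (app σ (uu i) ++ P)) else vl σ i 6
  | i, 7 => if i = j then
      (if j = 0 then vl σ 0 7 else Q ++ (app σ (hl n j) ++ (vl σ (j - 1) 3 ++ (vl σ (j - 1) 3 ++
        (vl σ (j - 1) 1 ++ T j :: vl σ j 7))))) ++
      (if j = n then [] else T j :: (vl σ j 0 ++ (vl σ j 2 ++ (vl σ j 2 ++ (app σ (uu j) ++ P)))))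
      else vl σ i 7
  | i, c => vl σ i c

/-- the second substitution -/
def nsub (n : ℕ) (T : ℕ → S) (σ : ℕ → List S) (j : ℕ) (P Q : List S) (x : ℕ) : List S :=
  if x < 3 then [] else nv n T σ j P Q ((x - 3) / 8) ((x - 3) % 8)

theorem vl_nsub (n : ℕ) (T : ℕ → S) (σ : ℕ → List S) (j : ℕ) (P Q : List S) (i c : ℕ)
    (hc : c < 8) : vl (nsub n T σ j P Q) i c = nv n T σ j P Q i c := by
  unfold vl nsub
  have h1 : ¬ (8 * i + c + 3 < 3) := by omega
  have h2 : (8 * i + c + 3 - 3) / 8 = i := by omega
  have h3 : (8 * i + c + 3 - 3) % 8 = c := by omega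
  rw [if_neg h1, h2, h3]

theorem nsub_zero (n : ℕ) (T : ℕ → S) (σ : ℕ → List S) (j : ℕ) (P Q : List S) :
    app (nsub n T σ j P Q) Y = [] := by simp [Y, nsub]

/-- the overhang after `k` blocks -/
def ov (n : ℕ) (T : ℕ → S) (σ : ℕ → List S) (j : ℕ) (P : List S) (k : ℕ) : List S :=
  if k = j ∧ j < n then
    T j :: (vl σ j 0 ++ (vl σ j 2 ++ (vl σ j 2 ++ (app σ (uu j) ++ P)))) else []

theorem pre_succ (n : ℕ) (T : ℕ → S) (k : ℕ) : pre n T (k + 1) = pre n T k ++ blk n T k := by
  simp [pre, List.range_succ]

theorem app_pre (n : ℕ) (T : ℕ → S) (σ : ℕ → List S) (j : ℕ) (P Q : List S) (hj : j ≤ n)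
    (hU : app σ Y = P ++ T j :: Q) (hn : 1 ≤ n) : ∀ k ≤ n,
    app (nsub n T σ j P Q) (pre n T k) = app σ (pre n T k) ++ ov n T σ j P k := by
  intro k
  induction k with
  | zero =>
    intro _
    simp only [pre, List.range_zero, List.flatMap_nil, app_V, app_nil, List.append_nil]
    rw [vl_nsub _ _ _ _ _ _ _ _ (by norm_num)]
    rcases Nat.eq_zero_or_pos j with h0 | h0
    · subst h0
      have hn0 : ¬ (0 = n) := by omega
      have hn1 : 0 < n := by omega
      simp [nv, ov, hn0, hn1]
    · have h1 : ¬ (0 = j) := by omega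
      simp [nv, ov, h1]
  | succ k ih =>
    intro hk
    have ih' := ih (by omega)
    rw [pre_succ, app_append, app_append, ih', List.append_assoc, List.append_assoc]
    congr 1
    rw [app_blk, app_blk, app_uu, app_hl, nsub_zero]
    simp only [vl_nsub _ _ _ _ _ _ _ _ (show (0 : ℕ) < 8 by norm_num),
      vl_nsub _ _ _ _ _ _ _ _ (show (1 : ℕ) < 8 by norm_num),
      vl_nsub _ _ _ _ _ _ _ _ (show (2 : ℕ) < 8 by norm_num),
      vl_nsub _ _ _ _ _ _ _ _ (show (3 : ℕ) < 8 by norm_num),
      vl_nsub _ _ _ _ _ _ _ _ (show (4 : ℕ) < 8 by norm_num),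
      vl_nsub _ _ _ _ _ _ _ _ (show (5 : ℕ) < 8 by norm_num),
      vl_nsub _ _ _ _ _ _ _ _ (show (6 : ℕ) < 8 by norm_num),
      vl_nsub _ _ _ _ _ _ _ _ (show (7 : ℕ) < 8 by norm_num)]
    rcases lt_trichotomy k j with hij | hij | hij
    · rcases Nat.lt_or_ge (k + 1) j with h1 | h1
      · -- whole, left type
        have e1 : k ≠ j := by omega
        have e2 : k + 1 ≠ j := by omega
        have e3 : k + 1 ≠ n := by omega
        simp only [nv, ov, if_neg e3, if_pos hij, if_pos h1, app_uu, app_hl,
          e1, e2, false_and, if_false]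
        rcases Nat.eq_zero_or_pos k with h0 | h0
        · simp [h0]
        · simp [Nat.ne_of_gt h0]
      · have e2 : k + 1 = j := by omega
        have e1 : k ≠ j := by omega
        have e4 : ¬ (k + 1 < j) := by omega
        have e5 : j ≠ 0 := by omega
        have e6 : j - 1 = k := by omega
        have e7 : ¬ (k = j ∧ j < n) := by omega
        simp only [nv, ov, if_neg e1, if_pos e2, if_pos hij, if_neg e4, if_neg e5, if_neg e7, e6]
        rw [hU]
        by_cases hjn : j = n
        · have e8 : ¬ (k + 1 = j ∧ j < n) := by omega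
          simp only [if_pos hjn, app_uu, app_hl, e2]
          rcases Nat.eq_zero_or_pos k with h0 | h0
          · simp [h0, hjn]
          · simp [Nat.ne_of_gt h0, hjn, hU]
        · have e9 : j < n := by omega
          simp only [if_neg hjn, app_uu, app_hl, e2]
          rcases Nat.eq_zero_or_pos k with h0 | h0
          · simp [h0, e9]
          · simp [Nat.ne_of_gt h0, hU, e9]
    · subst hij
      have e2 : k + 1 ≠ k := by omega
      have e4 : ¬ (k + 1 < k) := by omega
      have e7 : k < n := by omega
      have e8 : ¬ (k + 1 = k ∧ k < n) := by omega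
      simp only [nv, ov, if_neg e2, if_neg e4, lt_irrefl, if_true, if_false, if_neg e8]
      rw [hU]
      rcases Nat.eq_zero_or_pos k with h0 | h0
      · subst h0
        have e9 : 0 < n := by omega
        simp [app_uu, app_hl, e9]
      · have h0' : k ≠ 0 := Nat.ne_of_gt h0
        simp [h0', app_uu, app_hl, e7, hU]
    · have e1 : k ≠ j := by omega
      have e2 : k + 1 ≠ j := by omega
      have e3 : ¬ (k < j) := by omega
      have e4 : ¬ (k + 1 < j) := by omega
      have h0 : k ≠ 0 := by omega
      simp only [nv, ov, if_neg e3, if_neg e4, app_uu, app_hl,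
          e1, e2, false_and, if_false, if_neg h0]
      simp


end Pat

section Rigid

variable {S : Type}

/-- terminal-free -/
def TF (l : Pattern S) : Prop := ∀ a : S, Sum.inr a ∉ l

theorem split_tf {u1 u2 r1 r2 : Pattern S} {a b : S} (h1 : TF u1) (h2 : TF u2)
    (h : u1 ++ Sum.inr a :: r1 = u2 ++ Sum.inr b :: r2) : u1 = u2 ∧ r1 = r2 := by
  induction u1 generalizing u2 with
  | nil =>
    cases u2 with
    | nil =>
      simp at h
      exact ⟨rfl, h.2⟩
    | cons s u2 =>
      simp only [List.nil_append, List.cons_append, List.cons.injEq] at h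
      exact absurd (by rw [← h.1]; simp) (h2 a)
  | cons t u1 ih =>
    cases u2 with
    | nil =>
      simp only [List.nil_append, List.cons_append, List.cons.injEq] at h
      exact absurd (by rw [h.1]; simp) (h1 b)
    | cons s u2 =>
      simp only [List.cons_append, List.cons.injEq] at h
      obtain ⟨e1, e2⟩ := ih (fun a ha => h1 a (List.mem_cons_of_mem _ ha))
        (fun a ha => h2 a (List.mem_cons_of_mem _ ha)) h.2
      exact ⟨by rw [h.1, e1], e2⟩

theorem first_occ {X : Type} {s : X} {u1 u2 r1 r2 : List X} (h1 : s ∉ u1) (h2 : s ∉ u2)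
    (h : u1 ++ s :: r1 = u2 ++ s :: r2) : u1 = u2 ∧ r1 = r2 := by
  induction u1 generalizing u2 with
  | nil =>
    cases u2 with
    | nil => simpa using h
    | cons t u2 =>
      simp only [List.nil_append, List.cons_append, List.cons.injEq] at h
      exact absurd (by rw [← h.1]; simp) h2
  | cons t u1 ih =>
    cases u2 with
    | nil =>
      simp only [List.nil_append, List.cons_append, List.cons.injEq] at h
      exact absurd (by rw [h.1]; simp) h1
    | cons s' u2 =>
      simp only [List.cons_append, List.cons.injEq] at h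
      obtain ⟨e1, e2⟩ := ih (fun ha => h1 (List.mem_cons_of_mem _ ha))
        (fun ha => h2 (List.mem_cons_of_mem _ ha)) h.2
      exact ⟨by rw [h.1, e1], e2⟩

theorem split_one {X : Type} [DecidableEq X] {s : X} {C : List X} (h : C.count s = 1) :
    ∃ x z, C = x ++ s :: z ∧ s ∉ x ∧ s ∉ z := by
  have hm : s ∈ C := List.count_pos_iff.mp (by omega)
  obtain ⟨x, z, rfl⟩ := List.append_of_mem hm
  rw [List.count_append, List.count_cons_self] at h
  exact ⟨x, z, rfl, List.count_eq_zero.mp (by omega), List.count_eq_zero.mp (by omega)⟩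

theorem sq_occ {X : Type} {s : X} {A C R L M : List X} (hA : s ∉ A) (hR : s ∉ R) (hL : s ∉ L)
    (hM : s ∉ M) (h : A ++ (C ++ (C ++ R)) = L ++ s :: s :: M) : C = [s] ∧ A = L ∧ R = M := by
  classical
  have hc : C.count s = 1 := by
    have := congrArg (List.count s) h
    simp only [List.count_append, List.count_cons_self, List.count_eq_zero.mpr hA,
      List.count_eq_zero.mpr hR, List.count_eq_zero.mpr hL, List.count_eq_zero.mpr hM] at this
    omega
  obtain ⟨x, z, rfl, hx, hz⟩ := split_one hc
  have h' : (A ++ x) ++ s :: ((z ++ x) ++ s :: (z ++ R)) = L ++ s :: ([] ++ s :: M) := by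
    simpa using h
  obtain ⟨e1, e2⟩ := first_occ (by simp [hA, hx]) hL h'
  obtain ⟨e3, e4⟩ := first_occ (by simp [hx, hz]) (by simp) e2
  obtain ⟨rfl, rfl⟩ := List.append_eq_nil_iff.mp e3
  refine ⟨by simp, by simpa using e1, by simpa using e4⟩

theorem two_occ {X : Type} {s : X} {C W R M : List X} (hW : s ∉ W) (hR : s ∉ R)
    (hM : s ∉ M) (h : C ++ (W ++ (C ++ R)) = s :: (W ++ s :: M)) : C = [s] ∧ R = M := by
  classical
  have hc : C.count s = 1 := by
    have := congrArg (List.count s) h
    simp only [List.count_append, List.count_cons_self, List.count_eq_zero.mpr hW,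
      List.count_eq_zero.mpr hR, List.count_eq_zero.mpr hM] at this
    omega
  obtain ⟨x, z, rfl, hx, hz⟩ := split_one hc
  have h' : x ++ s :: ((z ++ (W ++ x)) ++ s :: (z ++ R)) = [] ++ s :: (W ++ s :: M) := by
    simpa using h
  obtain ⟨e1, e2⟩ := first_occ hx (by simp) h'
  subst e1
  obtain ⟨e3, e4⟩ := first_occ (by simp [hW, hz]) hW e2
  have hz0 : z = [] := by
    have := congrArg List.length e3
    simp only [List.length_append, List.length_nil] at this
    exact List.length_eq_zero_iff.mp (by omega)
  subst hz0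
  exact ⟨by simp, by simpa using e4⟩

theorem tf_msub {h : ℕ → Pattern S} (hh : ∀ v, TF (h v)) {B : Pattern S} (hB : TF B) :
    TF (msub h B) := by
  intro a ha
  unfold msub at ha
  obtain ⟨s, hs, hm⟩ := List.mem_flatMap.mp ha
  rcases s with v | b
  · exact hh v a hm
  · exact hB b hs

theorem tf_Y : TF (Y : Pattern S) := by
  intro a
  simp [Y]

theorem tf_stf (n i : ℕ) : TF (stf n i : Pattern S) := by
  intro a
  unfold stf uu hl V Y
  split_ifs <;> simp

theorem tf_B1 (n i : ℕ) : TF (B1 n i : Pattern S) := by
  intro a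
  have := tf_stf (S := S) n i a
  simp [B1, V, this]

theorem tf_B2 (n i : ℕ) : TF (B2 n i : Pattern S) := by
  intro a
  have := tf_stf (S := S) n i a
  simp [B2, V, this]

theorem segs (n : ℕ) (T : ℕ → S) (h : ℕ → Pattern S) (hh : ∀ v, TF (h v)) (l : List ℕ) :
    ∀ x : ℕ, h x ++ msub h (l.flatMap (blk n T)) = [Sum.inl x] ++ l.flatMap (blk n T) →
      h x = [Sum.inl x] ∧ ∀ i ∈ l, msub h (B1 n i) = B1 n i ∧ msub h (B2 n i) = B2 n i ∧
        msub h [V i 6] = [V i 6] ∧ msub h [V (i + 1) 7] = [V (i + 1) 7] := by
  induction l with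
  | nil =>
    intro x hx
    simp only [List.flatMap_nil, msub_nil, List.append_nil] at hx
    exact ⟨hx, by simp⟩
  | cons i l ih =>
    intro x hx
    rw [List.flatMap_cons, msub_append] at hx
    simp only [blk, msub_append, msub_inr, List.cons_append, List.append_assoc, V, msub_inl,
      msub_nil, List.nil_append] at hx
    obtain ⟨e1, hx⟩ := split_tf (u2 := [Sum.inl x]) (hh x) (by intro a; simp) hx
    obtain ⟨e2, hx⟩ := split_tf (tf_msub hh (tf_B1 n i)) (tf_B1 n i) hx
    obtain ⟨e3, hx⟩ := split_tf (u2 := [Sum.inl (8 * i + 6 + 3)]) (hh _) (by intro a; simp) hx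
    obtain ⟨e4, hx⟩ := split_tf (tf_msub hh (tf_B2 n i)) (tf_B2 n i) hx
    obtain ⟨e5, e6⟩ := ih (8 * (i + 1) + 7 + 3) (by simpa using hx)
    refine ⟨e1, ?_⟩
    intro i' hi'
    rcases List.mem_cons.mp hi' with rfl | hi'
    · refine ⟨e2, e4, ?_, ?_⟩
      · simp [V, e3]
      · simp [V, e5]
    · exact e6 i' hi'

theorem V_ne {i c i' c' : ℕ} (hc : c < 8) (hc' : c' < 8) (h : ¬ (i = i' ∧ c = c')) :
    (V i c : ℕ ⊕ S) ≠ V i' c' := by
  intro e
  simp only [V, Sum.inl.injEq] at e
  apply h
  constructor <;> omega

theorem V_notMem_Y (i c : ℕ) : (V i c : ℕ ⊕ S) ∉ Y := by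
  unfold Y V
  simp

theorem V_notMem_stf (n i i' c : ℕ) (hc : c < 4) : (V i' c : ℕ ⊕ S) ∉ stf n i := by
  have := V_notMem_Y (S := S) i' c
  unfold stf uu hl
  unfold V at this ⊢
  split_ifs <;> simp [this] <;> omega

/-- solving one block -/
theorem block_solve (n i : ℕ) (h : ℕ → Pattern S)
    (h1 : msub h (B1 n i) = B1 n i) (h2 : msub h (B2 n i) = B2 n i) :
    msub h [V i 0] = [V i 0] ∧ msub h [V i 1] = [V i 1] ∧ msub h [V i 2] = [V i 2] ∧
      msub h [V i 3] = [V i 3] ∧ msub h (stf n i) = stf n i := by
  have m0 := V_notMem_stf (S := S) n i i 2 (by norm_num)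
  have m1 := V_notMem_stf (S := S) n i i 3 (by norm_num)
  have m2 := V_notMem_stf (S := S) n i i 0 (by norm_num)
  have E1 : msub h [V i 0] ++ (msub h [V i 2] ++ (msub h [V i 2] ++
      (msub h (stf n i) ++ msub h [V i 1]))) = [V i 0] ++ V i 2 :: V i 2 :: (stf n i ++ [V i 1]) := by
    rw [B1] at h1
    simp only [V, msub_inl, msub_append, msub_nil, List.append_nil] at h1 ⊢
    exact h1
  have E2 : (msub h [V i 0] ++ msub h (stf n i)) ++ (msub h [V i 3] ++ (msub h [V i 3] ++
      msub h [V i 1])) = (V i 0 :: stf n i) ++ V i 3 :: V i 3 :: [V i 1] := by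
    rw [B2] at h2
    simp only [V, msub_inl, msub_append, msub_nil, List.append_nil] at h2 ⊢
    simpa using h2
  have n20 : (V i 2 : ℕ ⊕ S) ≠ V i 0 := V_ne (by norm_num) (by norm_num) (by simp)
  have n23 : (V i 2 : ℕ ⊕ S) ≠ V i 3 := V_ne (by norm_num) (by norm_num) (by simp)
  have n21 : (V i 2 : ℕ ⊕ S) ≠ V i 1 := V_ne (by norm_num) (by norm_num) (by simp)
  have n30 : (V i 3 : ℕ ⊕ S) ≠ V i 0 := V_ne (by norm_num) (by norm_num) (by simp)
  have n32 : (V i 3 : ℕ ⊕ S) ≠ V i 2 := V_ne (by norm_num) (by norm_num) (by simp)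
  have n31 : (V i 3 : ℕ ⊕ S) ≠ V i 1 := V_ne (by norm_num) (by norm_num) (by simp)
  have c2 : (V i 2 : ℕ ⊕ S) ∉ (msub h [V i 0] ++ msub h (stf n i)) ++
      (msub h [V i 3] ++ (msub h [V i 3] ++ msub h [V i 1])) := by
    rw [E2]
    simp [n20, n23, n21, m0]
  have c3 : (V i 3 : ℕ ⊕ S) ∉ msub h [V i 0] ++ (msub h [V i 2] ++ (msub h [V i 2] ++
      (msub h (stf n i) ++ msub h [V i 1]))) := by
    rw [E1]
    simp [n30, n32, n31, m1]
  simp only [List.mem_append, not_or] at c2 c3
  obtain ⟨f1, f2, f3⟩ := sq_occ (s := V i 2) (by tauto) (by simp only [List.mem_append]; tauto)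
    (by simp [n20]) (by simp [n21, m0]) E1
  obtain ⟨g1, g2, g3⟩ := sq_occ (s := V i 3) (by simp only [List.mem_append]; tauto) (by tauto)
    (by simp [n30, m1]) (by simp [n31]) E2
  refine ⟨f2, g3, f1, g1, ?_⟩
  rw [f2] at g2
  simpa using g2

theorem V4_notMem_stf (n i i' : ℕ) (hi : i ≠ i') : (V i' 4 : ℕ ⊕ S) ∉ stf n i := by
  have := V_notMem_Y (S := S) i' 4
  unfold stf uu hl
  unfold V at this ⊢
  split_ifs <;> simp [this] <;> omega

theorem V4_notMem_hl (n i i' : ℕ) : (V i' 4 : ℕ ⊕ S) ∉ hl n i := by
  unfold hl V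
  split_ifs <;> simp <;> omega

/-- solving the chain of the middle parts -/
theorem chain_solve (n : ℕ) (h : ℕ → Pattern S)
    (hs : ∀ i < n, msub h (stf n i) = stf n i) : ∀ i < n,
    msub h Y ++ msub h (hl n (i + 1)) = Y ++ hl n (i + 1) ∧
      (i ≠ 0 → msub h [V i 4] = [V i 4]) := by
  intro i
  induction i with
  | zero =>
    intro h0
    have := hs 0 h0
    simp only [stf, uu, if_true, List.nil_append, msub_append] at this
    exact ⟨this, by simp⟩
  | succ i ih =>
    intro hi
    obtain ⟨e1, -⟩ := ih (by omega)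
    have hne : i + 1 ≠ n := by omega
    have hne0 : i + 1 ≠ 0 := by omega
    have hS := hs (i + 1) hi
    rw [hl, if_neg hne] at e1
    have E : msub h [V (i + 1) 4] ++ ((msub h Y ++ msub h [V (i + 1) 5]) ++
        (msub h [V (i + 1) 4] ++ (msub h Y ++ msub h (hl n (i + 1 + 1))))) =
        V (i + 1) 4 :: ((Y ++ [V (i + 1) 5]) ++ V (i + 1) 4 ::
          (Y ++ hl n (i + 1 + 1))) := by
      rw [stf, uu, if_neg hne0] at hS
      simp only [V, msub_inl, msub_append, msub_nil, List.append_nil, List.cons_append,
        List.nil_append, List.append_assoc] at hS ⊢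
      exact hS
    rw [e1] at E
    have hR : (V (i + 1) 4 : ℕ ⊕ S) ∉ msub h Y ++ msub h (hl n (i + 1 + 1)) := by
      rw [List.mem_append, not_or]
      constructor
      · intro hm
        have : (V (i + 1) 4 : ℕ ⊕ S) ∈ msub h Y ++ msub h [V (i + 1) 5] :=
          List.mem_append_left _ hm
        rw [e1] at this
        simp [V, Y] at this
      · intro hm
        unfold hl at hm
        split_ifs at hm with h2
        · simp at hm
        · have h3 := hs (i + 1 + 1) (by omega)
          have h4 : (V (i + 1) 4 : ℕ ⊕ S) ∈ msub h (stf n (i + 1 + 1)) := by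
            unfold stf uu
            rw [if_neg (by omega : i + 1 + 1 ≠ 0)]
            simp only [V, msub_inl, msub_append, msub_nil, List.append_nil, List.mem_append,
              List.cons_append] at hm ⊢
            tauto
          rw [h3] at h4
          exact V4_notMem_stf n (i + 1 + 1) (i + 1) (by omega) h4
    obtain ⟨f1, f2⟩ := two_occ (s := V (i + 1) 4) (by simp [V, Y]) hR
      (by
        rw [List.mem_append, not_or]
        exact ⟨V_notMem_Y _ _, V4_notMem_hl _ _ _⟩) E
    exact ⟨f2, fun _ => f1⟩

/-- solving the central part -/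
theorem Y_solve (x y z : Pattern S) (h : x ++ (x ++ (y ++ (y ++ (z ++ z)))) = Y) :
    x = [Sum.inl 0] ∧ y = [Sum.inl 1] ∧ z = [Sum.inl 2] := by
  unfold Y at h
  have hl := congrArg List.length h
  simp only [List.length_append, List.length_cons, List.length_nil] at hl
  have hl' : x.length + y.length + z.length = 3 := by omega
  clear hl
  have ht : ∀ (a b c : ℕ ⊕ S) (l : Pattern S), (a :: b :: c :: l).length ≤ 3 → l = [] := by
    intro a b c l hl
    simp only [List.length_cons] at hl
    exact List.length_eq_zero_iff.mp (by omega)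
  rcases x with _ | ⟨x1, _ | ⟨x2, _ | ⟨x3, x⟩⟩⟩ <;>
  rcases y with _ | ⟨y1, _ | ⟨y2, _ | ⟨y3, y⟩⟩⟩ <;>
  rcases z with _ | ⟨z1, _ | ⟨z2, _ | ⟨z3, z⟩⟩⟩
  all_goals first
    | (exfalso; simp only [List.length_cons, List.length_nil] at hl'; omega)
    | (try have h1 := ht x1 x2 x3 x (by omega)
       try have h2 := ht y1 y2 y3 y (by omega)
       try have h3 := ht z1 z2 z3 z (by omega)
       try subst h1
       try subst h2
       try subst h3
       simp only [List.cons_append, List.nil_append, List.cons.injEq, List.append_nil] at h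
       grind)

/-- the values of a morphism fixing the pattern -/
theorem rigid (n : ℕ) (hn : 1 ≤ n) (T : ℕ → S) (h : ℕ → Pattern S) (hh : ∀ v, TF (h v))
    (hf : msub h (pat n T) = pat n T) : ∀ v, Sum.inl v ∈ pat n T → h v = [Sum.inl v] := by
  have hf' : h (8 * 0 + 7 + 3) ++ msub h ((List.range n).flatMap (blk n T)) =
      [Sum.inl (8 * 0 + 7 + 3)] ++ (List.range n).flatMap (blk n T) := by
    simpa [pat, pre, V] using hf
  obtain ⟨h07, hseg⟩ := segs n T h hh (List.range n) _ hf'
  have hseg' : ∀ i < n, _ := fun i hi => hseg i (List.mem_range.mpr hi)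
  have hsol : ∀ i < n, _ := fun i hi => block_solve n i h (hseg' i hi).1 (hseg' i hi).2.1
  have hch := chain_solve n h (fun i hi => (hsol i hi).2.2.2.2)
  have hY : msub h Y = Y := by
    have := (hch (n - 1) (by omega)).1
    rw [show n - 1 + 1 = n by omega] at this
    simpa [hl] using this
  obtain ⟨h0, h1, h2⟩ := Y_solve (h 0) (h 1) (h 2) (by
    rw [← hY]
    simp [Y])
  have h5 : ∀ i < n, i + 1 ≠ n → msub h [V (i + 1) 5] = [V (i + 1) 5] := by
    intro i hi hne
    have := (hch i hi).1
    rw [hY, hl, if_neg hne] at this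
    exact List.append_cancel_left this
  have conv : ∀ i c, msub h [V i c] = [V i c] → h (8 * i + c + 3) = [Sum.inl (8 * i + c + 3)] := by
    intro i c e
    simpa [V] using e
  have hYm : ∀ v, Sum.inl v ∈ (Y : Pattern S) → h v = [Sum.inl v] := by
    intro v hv
    simp only [Y, List.mem_cons, Sum.inl.injEq, List.not_mem_nil, or_false] at hv
    rcases hv with rfl | rfl | rfl | rfl | rfl | rfl
    all_goals first | exact h0 | exact h1 | exact h2
  intro v hv
  rw [pat, pre, List.mem_cons] at hv
  rcases hv with hv | hv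
  · simp only [V, Sum.inl.injEq] at hv
    rw [hv]
    exact h07
  · obtain ⟨i, hi, hv⟩ := List.mem_flatMap.mp hv
    have hi' := List.mem_range.mp hi
    obtain ⟨s1, s2, s3, s4⟩ := hseg' i hi'
    obtain ⟨t0, t1, t2, t3, t4⟩ := hsol i hi'
    have hst : Sum.inl v ∈ (stf n i : Pattern S) → h v = [Sum.inl v] := by
      intro hv
      unfold stf uu hl at hv
      by_cases hi0 : i = 0
      · rw [if_pos hi0] at hv
        by_cases hin : i + 1 = n
        · rw [if_pos hin] at hv
          simp only [List.nil_append, List.append_nil] at hv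
          exact hYm v hv
        · rw [if_neg hin] at hv
          simp only [V, List.nil_append, List.mem_append, List.mem_cons, Sum.inl.injEq,
            List.not_mem_nil, or_false] at hv
          rcases hv with hv | rfl
          · exact hYm v hv
          · exact conv _ _ (h5 i hi' hin)
      · rw [if_neg hi0] at hv
        have h4 := conv _ _ ((hch i hi').2 hi0)
        have h5' : h (8 * i + 5 + 3) = [Sum.inl (8 * i + 5 + 3)] := by
          have := h5 (i - 1) (by omega) (by omega)
          rw [show i - 1 + 1 = i by omega] at this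
          exact conv _ _ this
        by_cases hin : i + 1 = n
        · rw [if_pos hin] at hv
          simp only [V, List.cons_append, List.nil_append, List.mem_cons, List.mem_append,
            Sum.inl.injEq, List.not_mem_nil, or_false, List.append_assoc] at hv
          rcases hv with rfl | hv | rfl | rfl | hv
          all_goals first | exact hYm v hv | exact h4 | exact h5'
        · rw [if_neg hin] at hv
          simp only [V, List.cons_append, List.nil_append, List.mem_cons, List.mem_append,
            Sum.inl.injEq, List.not_mem_nil, or_false, List.append_assoc] at hv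
          rcases hv with rfl | hv | rfl | rfl | hv | rfl
          all_goals first | exact hYm v hv | exact h4 | exact h5' | exact conv _ _ (h5 i hi' hin)
    simp only [blk, B1, B2, List.cons_append, List.append_assoc, List.mem_cons, List.mem_append,
      List.nil_append, List.not_mem_nil, or_false, reduceCtorEq, false_or] at hv
    have c0 := conv _ _ t0
    have c1 := conv _ _ t1
    have c2 := conv _ _ t2
    have c3 := conv _ _ t3
    have c6 := conv _ _ s3
    have c7 := conv _ _ s4
    simp only [V, Sum.inl.injEq] at hv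
    rcases hv with rfl | rfl | rfl | hv | rfl | rfl | rfl | hv | rfl | rfl | rfl | rfl
    all_goals first | exact c0 | exact c1 | exact c2 | exact c3 | exact c6 | exact c7 |
      exact hst hv

theorem count_term (h : ℕ → Pattern S) (α : Pattern S) :
    α.countP Sum.isRight ≤ (msub h α).countP Sum.isRight ∧ ∀ v, Sum.inl v ∈ α →
      α.countP Sum.isRight + (h v).countP Sum.isRight ≤ (msub h α).countP Sum.isRight := by
  induction α with
  | nil => simp
  | cons s α ih =>
    obtain ⟨ih1, ih2⟩ := ih
    rcases s with w | a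
    · rw [msub_inl, List.countP_append, List.countP_cons_of_neg (by simp)]
      refine ⟨by omega, ?_⟩
      intro v hv
      rcases List.mem_cons.mp hv with hv | hv
      · simp only [Sum.inl.injEq] at hv
        subst hv
        omega
      · have := ih2 v hv
        omega
    · rw [msub_inr, List.countP_cons_of_pos (by simp), List.countP_cons_of_pos (by simp)]
      refine ⟨by omega, ?_⟩
      intro v hv
      have hv' : Sum.inl v ∈ α := by simpa using hv
      have := ih2 v hv'
      omega

theorem msub_congr {h h' : ℕ → Pattern S} {α : Pattern S}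
    (e : ∀ v, Sum.inl v ∈ α → h v = h' v) : msub h α = msub h' α := by
  induction α with
  | nil => rfl
  | cons s α ih =>
    have ih' := ih (fun v hv => e v (List.mem_cons_of_mem _ hv))
    rcases s with v | a
    · simp [ih', e v (by simp)]
    · simp [ih']

theorem length_msub (φ : ℕ → Pattern S) (α : Pattern S)
    (h : ∀ v, Sum.inl v ∈ α → φ v ≠ []) : α.length ≤ (msub φ α).length := by
  induction α with
  | nil => simp
  | cons s α ih =>
    have ih' := ih (fun v hv => h v (List.mem_cons_of_mem _ hv))
    rcases s with v | a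
    · have := List.length_pos_of_ne_nil (h v (by simp))
      simp only [msub_inl, List.length_cons, List.length_append]
      omega
    · simp only [msub_inr, List.length_cons]
      omega

theorem primitive (n : ℕ) (hn : 1 ≤ n) (T : ℕ → S) : MorphPrimitive (pat n T) := by
  classical
  rintro ⟨β, φ, ψ, hlen, h1, h2⟩
  subst h1
  rw [msub_msub] at h2
  set h : ℕ → Pattern S := fun v => msub ψ (φ v) with hh
  have htf : ∀ v, Sum.inl v ∈ pat n T → TF (h v) := by
    intro v hv
    have h3 := (count_term h (pat n T)).2 v hv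
    rw [h2] at h3
    have h4 : (h v).countP Sum.isRight = 0 := by omega
    rw [List.countP_eq_zero] at h4
    intro a ha
    simpa using h4 _ ha
  set h' : ℕ → Pattern S := fun v => if TF (h v) then h v else [] with hh'
  have e1 : msub h' (pat n T) = pat n T := by
    refine Eq.trans ?_ h2
    apply msub_congr
    intro v hv
    simp [hh', htf v hv]
  have e2 : ∀ v, TF (h' v) := by
    intro v
    simp only [hh']
    split_ifs with h5
    · exact h5
    · intro a; simp
  have e3 := rigid n hn T h' e2 e1
  have e4 : ∀ v, Sum.inl v ∈ pat n T → φ v ≠ [] := by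
    intro v hv h6
    have h7 := e3 v hv
    have h8 : h v = [] := by simp [hh, h6]
    simp [hh', h8] at h7
  have := length_msub φ (pat n T) e4
  omega

end Rigid


section Main

variable {S : Type}

theorem app_congr {σ τ : ℕ → List S} {α : Pattern S}
    (h : ∀ v, Sum.inl v ∈ α → σ v = τ v) : app σ α = app τ α := by
  induction α with
  | nil => rfl
  | cons s α ih =>
    have ih' := ih (fun v hv => h v (List.mem_cons_of_mem _ hv))
    rcases s with v | a
    · simp [ih', h v (by simp)]
    · simp [ih']

/-- a letter occurring in the central part can be moved -/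
theorem amb_letter (n : ℕ) (T : ℕ → S) (σ : ℕ → List S) (j : ℕ) (hj : j ≤ n) (hn : 1 ≤ n)
    (hm : T j ∈ app σ Y) : SubstAmbiguous σ 2 (pat n T) := by
  obtain ⟨P, Q, hU⟩ := List.append_of_mem hm
  refine ⟨nsub n T σ j P Q, ?_, by simp [nsub]⟩
  have := app_pre n T σ j P Q hj hU hn n le_rfl
  have e : ¬ (n = j ∧ j < n) := by omega
  rw [ov, if_neg e, List.append_nil] at this
  exact this

/-- the value of a substitution at the pattern depends on the values at `0`, `1`, `2` only through
the central part -/
theorem app_pat_congr (n : ℕ) (T : ℕ → S) (σ τ : ℕ → List S) (hY : app τ Y = app σ Y)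
    (h : ∀ x, 3 ≤ x → τ x = σ x) : app τ (pat n T) = app σ (pat n T) := by
  have hv : ∀ i c, vl τ i c = vl σ i c := fun i c => h _ (by omega)
  have key : ∀ k, app τ (pre n T k) = app σ (pre n T k) := by
    intro k
    induction k with
    | zero => simp only [pre, List.range_zero, List.flatMap_nil, app_V, app_nil, hv]
    | succ k ih =>
      rw [pre_succ, app_append, app_append, ih, app_blk, app_blk, app_uu, app_uu, app_hl, app_hl]
      simp only [hv, hY]
  exact key n

theorem occ_cons_self {X : Type} (a : X) (l : List X) : occ a (a :: l) = occ a l + 1 := by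
  classical
  unfold occ
  rw [List.count_cons_self]

theorem occ_cons_ne {X : Type} {a b : X} (h : b ≠ a) (l : List X) : occ a (b :: l) = occ a l := by
  classical
  unfold occ
  rw [List.count_cons_of_ne h]

theorem occ_append {X : Type} (a : X) (l l' : List X) : occ a (l ++ l') = occ a l + occ a l' := by
  classical
  unfold occ
  rw [List.count_append]

theorem occ_pos {X : Type} {a : X} {l : List X} : 0 < occ a l ↔ a ∈ l := by
  classical
  unfold occ
  exact List.count_pos_iff

theorem count_le (σ : ℕ → List S) (A : S) (j k : ℕ) (hjk : k ≠ j) (α : Pattern S) :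
    occ (Sum.inl j) α * occ A (σ j) + occ (Sum.inl k) α * occ A (σ k) ≤ occ A (app σ (tf α)) := by
  induction α with
  | nil => simp [tf, occ]
  | cons s α ih =>
    rcases s with v | a
    · have e : tf (Sum.inl v :: α) = Sum.inl v :: tf α := by
        unfold tf
        rw [List.filter_cons]
        simp
      rw [e, app_inl, occ_append]
      by_cases h1 : v = j
      · subst h1
        have h2 : (Sum.inl v : ℕ ⊕ S) ≠ Sum.inl k := by
          intro h
          exact hjk (Sum.inl.inj h).symm
        rw [occ_cons_self, occ_cons_ne h2, add_mul, one_mul]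
        omega
      · have h1' : (Sum.inl v : ℕ ⊕ S) ≠ Sum.inl j := by
          intro h
          exact h1 (Sum.inl.inj h)
        by_cases h2 : v = k
        · subst h2
          rw [occ_cons_self, occ_cons_ne h1', add_mul, one_mul]
          omega
        · have h2' : (Sum.inl v : ℕ ⊕ S) ≠ Sum.inl k := by
            intro h
            exact h2 (Sum.inl.inj h)
          rw [occ_cons_ne h1', occ_cons_ne h2']
          omega
    · have e : tf (Sum.inr a :: α) = tf α := by
        unfold tf
        rw [List.filter_cons]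
        simp
      rw [e, occ_cons_ne (by simp), occ_cons_ne (by simp)]
      exact ih

theorem Y_sub (n : ℕ) (hn : 1 ≤ n) (T : ℕ → S) (s : ℕ ⊕ S) (hs : s ∈ (Y : Pattern S)) :
    s ∈ pat n T := by
  obtain ⟨m, rfl⟩ : ∃ m, n = m + 1 := ⟨n - 1, by omega⟩
  simp only [pat, pre, List.mem_cons, List.mem_flatMap]
  refine Or.inr ⟨0, by simp, ?_⟩
  simp [blk, B1, stf, hs]

theorem letters (n : ℕ) (T : ℕ → S) (a : S) (h : Sum.inr a ∈ pat n T) : ∃ j ≤ n, a = T j := by
  simp only [pat, pre, List.mem_cons, List.mem_flatMap, List.mem_range] at h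
  rcases h with h | ⟨i, hi, h⟩
  · simp [V] at h
  · have h1 := tf_B1 (S := S) n i a
    have h2 := tf_B2 (S := S) n i a
    simp only [blk, List.mem_cons, List.mem_append, h1, h2, false_or, V, reduceCtorEq,
      Sum.inr.injEq, List.not_mem_nil, or_false] at h
    rcases h with h | h | h | h
    · exact ⟨i, by omega, h⟩
    · exact ⟨i + 1, by omega, h⟩
    · exact ⟨i, by omega, h⟩
    · exact ⟨i + 1, by omega, h⟩

/-- every telltale candidate for the variable `2` is substantially ambiguous -/
theorem telltale_amb (n : ℕ) (hn : 1 ≤ n) (T : ℕ → S) (d e : S)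
    (hsurj : ∀ c : S, c = d ∨ c = e ∨ ∃ j ≤ n, T j = c) (σ : ℕ → List S)
    (hσ : TelltaleCandidate σ 2 (pat n T)) : SubstAmbiguous σ 2 (pat n T) := by
  classical
  by_cases hT : ∃ j ≤ n, T j ∈ app σ (Y : Pattern S)
  · obtain ⟨j, hj, hm⟩ := hT
    exact amb_letter n T σ j hj hn hm
  · push Not at hT
    obtain ⟨A, h1, h2⟩ := hσ
    have hde : ∀ x, x ∈ app σ (Y : Pattern S) → x = d ∨ x = e := by
      intro x hx
      rcases hsurj x with rfl | rfl | ⟨j, hj, rfl⟩
      · exact Or.inl rfl
      · exact Or.inr rfl
      · exact absurd hx (hT j hj)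
    have hA : A ∈ σ 2 := occ_pos.mp (by omega)
    have hno : ∀ k, k ≠ 2 → Sum.inl k ∈ pat n T → A ∉ σ k := by
      intro k hk hkm hAk
      have h3 := count_le σ A 2 k hk (pat n T)
      have h4 : 0 < occ (Sum.inl k) (pat n T) := occ_pos.mpr hkm
      have h5 : 0 < occ A (σ k) := occ_pos.mpr hAk
      have h6 := Nat.mul_pos h4 h5
      rw [h2, h1] at h3
      omega
    have hA0 : A ∉ σ 0 := hno 0 (by norm_num) (Y_sub n hn T _ (by simp [Y]))
    have hA1 : A ∉ σ 1 := hno 1 (by norm_num) (Y_sub n hn T _ (by simp [Y]))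
    have hAde : A = d ∨ A = e := hde A (by rw [app_Y]; simp [hA])
    obtain ⟨f, hf⟩ : ∃ f, ∀ y, (y ∈ σ 0 ∨ y ∈ σ 1) → y = f := by
      rcases hAde with rfl | rfl
      · refine ⟨e, fun y hy => ?_⟩
        rcases hde y (by rw [app_Y]; simp only [List.mem_append]; tauto) with rfl | rfl
        · exact absurd hy (by tauto)
        · rfl
      · refine ⟨d, fun y hy => ?_⟩
        rcases hde y (by rw [app_Y]; simp only [List.mem_append]; tauto) with rfl | rfl
        · rfl
        · exact absurd hy (by tauto)
    have ha : σ 0 = List.replicate (σ 0).length f :=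
      List.eq_replicate_of_mem (fun y hy => hf y (Or.inl hy))
    have hb : σ 1 = List.replicate (σ 1).length f :=
      List.eq_replicate_of_mem (fun y hy => hf y (Or.inr hy))
    refine ⟨fun x => if x = 0 then List.replicate ((σ 0).length + (σ 1).length) f else
      if x = 1 then σ 2 else if x = 2 then [] else σ x, ?_, by simp⟩
    apply app_pat_congr
    · rw [app_Y, app_Y]
      simp only [if_true, if_neg (show ¬ (1 = 0) by norm_num), if_neg (show ¬ (2 = 0) by norm_num),
        if_neg (show ¬ (2 = 1) by norm_num), List.append_nil]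
      rw [ha, hb]
      simp only [List.length_replicate]
      simp only [← List.append_assoc, List.replicate_append_replicate]
      congr 3
      omega
    · intro x hx
      rw [if_neg (by omega), if_neg (by omega), if_neg (by omega)]

end Main

/-- For every finite alphabet with at least four letters there are a morphically primitive pattern
that is quasi-terminal-free on it and a variable of the pattern for which every telltale candidate
is substantially ambiguous. -/
theorem result : ∀ (S : Type) [Fintype S], 4 ≤ Fintype.card S →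
    ∃ α : Pattern S, MorphPrimitive α ∧ QuasiTerminalFree α ∧ ∃ i : ℕ, Sum.inl i ∈ α ∧
      ∀ σ : ℕ → List S, TelltaleCandidate σ i α → SubstAmbiguous σ i α := by
  intro S _ hS
  obtain ⟨n, hn⟩ : ∃ n, Fintype.card S = n + 3 := ⟨Fintype.card S - 3, by omega⟩
  have hn1 : 1 ≤ n := by omega
  let e : S ≃ Fin (n + 3) := (Fintype.equivFin S).trans (finCongr hn)
  let T : ℕ → S := fun j => e.symm (Fin.ofNat (n + 3) j)
  have hTv : ∀ j ≤ n, (e (T j)).val = j := by
    intro j hj
    simp only [T, Equiv.apply_symm_apply, Fin.ofNat]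
    exact Nat.mod_eq_of_lt (by omega)
  let d : S := e.symm ⟨n + 1, by omega⟩
  let d' : S := e.symm ⟨n + 2, by omega⟩
  have hd : (e d).val = n + 1 := by simp [d]
  have hd' : (e d').val = n + 2 := by simp [d']
  have hsurj : ∀ c : S, c = d ∨ c = d' ∨ ∃ j ≤ n, T j = c := by
    intro c
    have hc := (e c).isLt
    rcases Nat.lt_or_ge (e c).val (n + 1) with h | h
    · refine Or.inr (Or.inr ⟨(e c).val, by omega, ?_⟩)
      apply e.injective
      apply Fin.ext
      exact hTv _ (by omega)
    · rcases Nat.eq_or_lt_of_le h with h | h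
      · refine Or.inl ?_
        apply e.injective
        apply Fin.ext
        rw [hd, ← h]
      · refine Or.inr (Or.inl ?_)
        apply e.injective
        apply Fin.ext
        rw [hd']
        omega
  refine ⟨pat n T, primitive n hn1 T, ⟨d, d', ?_, ?_, ?_⟩, 2, Y_sub n hn1 T _ (by simp [Y]),
    fun σ h => telltale_amb n hn1 T d d' hsurj σ h⟩
  · intro h
    have := congrArg (fun x => (e x).val) h
    simp only [hd, hd'] at this
    omega
  · intro h
    obtain ⟨j, hj, h1⟩ := letters n T d h
    have := congrArg (fun x => (e x).val) h1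
    simp only [hd, hTv j hj] at this
    omega
  · intro h
    obtain ⟨j, hj, h1⟩ := letters n T d' h
    have := congrArg (fun x => (e x).val) h1
    simp only [hd', hTv j hj] at this
    omega

end Pool.Agent.Results.MP_0fc137_lc.TelltaleFails
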